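import Pool.Agent.H94.WRRA4

/-!
For every `n` there is a finite relation algebra which has no weak representation although all of
its `n`-generated subalgebras are representable.
-/

set_option autoImplicit false

namespace Pool.Agent.Results.MP_9e3e1a_lc.NoFiniteVariableBasis

/-- Tarski's axioms for relation algebras: `c` is composition, `v` converse, `e` identity. -/
structure IsRelationAlgebra {A : Type} [BooleanAlgebra A] (c : A → A → A) (v : A → A) (e : A) :
    Prop where
  assoc : ∀ x y z, c (c x y) z = c x (c y z)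
  comp_sup : ∀ x y z, c (x ⊔ y) z = c x z ⊔ c y z
  comp_one : ∀ x, c x e = x
  conv_conv : ∀ x, v (v x) = x
  conv_sup : ∀ x y, v (x ⊔ y) = v x ⊔ v y
  conv_comp : ∀ x y, v (c x y) = c (v y) (v x)
  tarski : ∀ x y, c (v x) (c x y)ᶜ ≤ yᶜ

/-- The subalgebra generated by `G`. -/
def Generated {A : Type} [BooleanAlgebra A] (c : A → A → A) (v : A → A) (e : A) (G : Set A) :
    Set A :=
  {a : A | ∀ T : Set A, G ⊆ T →
    (∀ x ∈ T, ∀ y ∈ T, x ⊔ y ∈ T ∧ xᶜ ∈ T ∧ c x y ∈ T ∧ v x ∈ T) → e ∈ T → a ∈ T}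

/-- `h` is a weak representation on `U` of the subalgebra `S`: it is injective on `S` and preserves
zero, identity, meet, composition and converse. -/
def IsWeakRepresentation {A : Type} [BooleanAlgebra A] (c : A → A → A) (v : A → A) (e : A)
    (S : Set A) {U : Type} (h : A → Set (U × U)) : Prop :=
  Set.InjOn h S ∧ h ⊥ = ∅ ∧ h e = {p : U × U | p.1 = p.2} ∧
    ∀ x ∈ S, ∀ y ∈ S,
      h (x ⊓ y) = h x ∩ h y ∧
      h (c x y) = {p : U × U | ∃ w : U, (p.1, w) ∈ h x ∧ (w, p.2) ∈ h y} ∧
      h (v x) = {p : U × U | (p.2, p.1) ∈ h x}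

/-- `h` is a representation on `U` of the subalgebra `S`: a weak representation that also preserves
joins and complements (relative to the image of the top element). -/
def IsRepresentation {A : Type} [BooleanAlgebra A] (c : A → A → A) (v : A → A) (e : A)
    (S : Set A) {U : Type} (h : A → Set (U × U)) : Prop :=
  IsWeakRepresentation c v e S h ∧
    ∀ x ∈ S, ∀ y ∈ S, h (x ⊔ y) = h x ∪ h y ∧ h xᶜ = h ⊤ \ h x

open Pool.Agent.H94.WRRA in
theorem axioms_of_inv {I : Type} [DecidableEq I] [Countable I] {i0 i1 : I} (h01 : i0 ≠ i1)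
    {x y z : Set (At I)} (hx : Inv i0 i1 x) (hy : Inv i0 i1 y) (hz : Inv i0 i1 z) :
    comp (comp x y) z = comp x (comp y z) ∧ comp x {At.one} = x := by
  obtain ⟨h, hinj, hbot, hone, hmeet, hconv, hcomp⟩ := exists_rep h01
  refine ⟨?_, ?_⟩
  · apply hinj (inv_comp (inv_comp hx hy) hz) (inv_comp hx (inv_comp hy hz))
    rw [hcomp _ _ (inv_comp hx hy) hz, hcomp _ _ hx (inv_comp hy hz), hcomp _ _ hx hy,
      hcomp _ _ hy hz]
    ext ⟨M, N⟩
    constructor
    · rintro ⟨w, ⟨w', h1, h2⟩, h3⟩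
      exact ⟨w', h1, w, h2, h3⟩
    · rintro ⟨w, h1, w', h2, h3⟩
      exact ⟨w', ⟨w, h1, h2⟩, h3⟩
  · apply hinj (inv_comp hx (inv_one i0 i1)) hx
    rw [hcomp _ _ hx (inv_one i0 i1), hone]
    ext ⟨M, N⟩
    constructor
    · rintro ⟨w, h1, h2⟩
      have : w = N := h2
      subst this
      exact h1
    · intro h1
      exact ⟨N, h1, rfl⟩

open Pool.Agent.H94.WRRA in
/-- A family of fewer than `log_4 |I|` elements is fixed by some transposition of indices. -/
theorem exists_inv {n m : ℕ} (hm : 4 ^ n < m) (g : Fin n → Set (At (Fin m))) :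
    ∃ i0 i1 : Fin m, i0 ≠ i1 ∧ ∀ j, Inv i0 i1 (g j) := by
  classical
  obtain ⟨i0, i1, h01, hcol⟩ := Fintype.exists_ne_map_eq_of_card_lt
    (fun i : Fin m => fun j : Fin n => (decide (At.c i ∈ g j), decide (At.a i ∈ g j)))
    (by simpa using hm)
  refine ⟨i0, i1, h01, fun j => ?_⟩
  have := congrFun hcol j
  simp only [Prod.mk.injEq, decide_eq_decide] at this
  exact this

open Pool.Agent.H94.WRRA in
theorem finite_at (m : ℕ) : Finite (At (Fin m)) := by
  have : Function.Injective (fun t : At (Fin m) => (match t with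
    | At.one => Sum.inl 0
    | At.k => Sum.inl 1
    | At.l => Sum.inl 2
    | At.b => Sum.inl 3
    | At.e => Sum.inl 4
    | At.p => Sum.inl 5
    | At.q => Sum.inl 6
    | At.c i => Sum.inr (true, i)
    | At.a i => Sum.inr (false, i) : Fin 7 ⊕ (Bool × Fin m))) := by
    intro t t' h
    cases t <;> cases t' <;> simp_all
  exact Finite.of_injective _ this

open Pool.Agent.H94.WRRA in
/-- For every `n` there is a finite relation algebra without weak representation, all of whose
`n`-generated subalgebras are representable. -/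
theorem result (n : ℕ) :
    ∃ (A : Type) (_ : BooleanAlgebra A) (c : A → A → A) (v : A → A) (e : A),
      Finite A ∧ IsRelationAlgebra c v e ∧
      (¬ ∃ (U : Type) (h : A → Set (U × U)), IsWeakRepresentation c v e Set.univ h) ∧
      ∀ g : Fin n → A, ∃ (U : Type) (h : A → Set (U × U)),
        IsRepresentation c v e (Generated c v e (Set.range g)) h := by
  classical
  let m : ℕ := 4 ^ (n + 3) + 1
  have hm3 : 4 ^ 3 < m := by
    have : 4 ^ 3 ≤ 4 ^ (n + 3) := Nat.pow_le_pow_right (by norm_num) (by omega)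
    omega
  have hmn : 4 ^ n < m := by
    have : 4 ^ n ≤ 4 ^ (n + 3) := Nat.pow_le_pow_right (by norm_num) (by omega)
    omega
  have hfin : Finite (At (Fin m)) := finite_at m
  have htriple : ∀ x y z : Set (At (Fin m)), ∃ i0 i1 : Fin m, i0 ≠ i1 ∧
      Inv i0 i1 x ∧ Inv i0 i1 y ∧ Inv i0 i1 z := by
    intro x y z
    obtain ⟨i0, i1, h01, h⟩ := exists_inv hm3 ![x, y, z]
    exact ⟨i0, i1, h01, h 0, h 1, h 2⟩
  refine ⟨Set (At (Fin m)), inferInstance, comp, fun t => t, {At.one}, inferInstance, ?_, ?_, ?_⟩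
  · refine ⟨?_, ?_, ?_, fun _ => rfl, fun _ _ => rfl, ?_, ?_⟩
    · intro x y z
      obtain ⟨i0, i1, h01, hx, hy, hz⟩ := htriple x y z
      exact (axioms_of_inv h01 hx hy hz).1
    · intro x y z
      ext t
      constructor
      · rintro ⟨r, hr | hr, s, hs, hok⟩
        · exact Or.inl ⟨r, hr, s, hs, hok⟩
        · exact Or.inr ⟨r, hr, s, hs, hok⟩
      · rintro (⟨r, hr, s, hs, hok⟩ | ⟨r, hr, s, hs, hok⟩)
        · exact ⟨r, Or.inl hr, s, hs, hok⟩
        · exact ⟨r, Or.inr hr, s, hs, hok⟩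
    · intro x
      obtain ⟨i0, i1, h01, hx, hy, hz⟩ := htriple x x x
      exact (axioms_of_inv h01 hx hy hz).2
    · intro x y
      ext t
      constructor
      · rintro ⟨r, hr, s, hs, hok⟩
        exact ⟨s, hs, r, hr, hok.swap12⟩
      · rintro ⟨r, hr, s, hs, hok⟩
        exact ⟨s, hs, r, hr, hok.swap12⟩
    · rintro x y t ⟨r, hr, s, hs, hok⟩ hty
      exact hs ⟨r, hr, t, hty, hok.swap23⟩
  · rintro ⟨U, h, hinj, hbot, -, hrep⟩
    exact no_rep U h hinj hbot (fun x y => (hrep x trivial y trivial).1)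
      (fun x y => (hrep x trivial y trivial).2.1) (fun x => (hrep x trivial x trivial).2.2)
  · intro g
    obtain ⟨i0, i1, h01, hg⟩ := exists_inv hmn g
    have hsub : ∀ x ∈ Generated comp (fun t => t) {At.one} (Set.range g), Inv i0 i1 x := by
      intro x hx
      apply hx {x | Inv i0 i1 x}
      · rintro _ ⟨j, rfl⟩
        exact hg j
      · intro x hx y hy
        exact ⟨inv_union hx hy, inv_compl hx, inv_comp hx hy, hx⟩
      · exact inv_one i0 i1
    obtain ⟨f, hinj, hbot, hone, hmeet, hconv, hcomp⟩ := exists_lab h01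
    refine ⟨ℕ, fun x => {p : ℕ × ℕ | f p.1 p.2 ∈ x}, ⟨hinj.mono hsub, hbot, hone, ?_⟩, ?_⟩
    · intro x hx y hy
      exact ⟨hmeet x y, hcomp x y (hsub x hx) (hsub y hy), hconv x⟩
    · intro x hx y hy
      refine ⟨rfl, ?_⟩
      ext p
      simp

end Pool.Agent.Results.MP_9e3e1a_lc.NoFiniteVariableBasis
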